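import Mathlib

set_option autoImplicit false

namespace Pool.Agent.Results.MP_509871_co.Counter

open Finset SimpleGraph

/-- every maximal clique meets every maximal stable set -/
def CIS {V : Type} (G : SimpleGraph V) : Prop :=
  ∀ Q S : Set V, Maximal G.IsClique Q → Maximal G.IsIndepSet S → (Q ∩ S).Nonempty

/-- all maximal stable sets have the same size -/
def WellCovered {V : Type} (G : SimpleGraph V) : Prop :=
  ∀ S T : Set V, Maximal G.IsIndepSet S → Maximal G.IsIndepSet T → S.ncard = T.ncard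

/-- distinct vertices have distinct neighbourhoods -/
def TwinFree {V : Type} (G : SimpleGraph V) : Prop :=
  ∀ u v, G.neighborSet u = G.neighborSet v → u = v

abbrev W := Fin 10 × Fin 8

def nb (i : Fin 3) (u : Fin 10) : Fin 10 :=
  ![![2, 7, 0, 8, 5, 4, 9, 1, 3, 6], ![7, 3, 5, 1, 9, 2, 8, 0, 6, 4],
    ![6, 4, 3, 2, 1, 8, 0, 9, 5, 7]] i u

def bit (x : Fin 8) (i : Fin 3) : Bool := x.val.testBit i.val

def adj (p q : W) : Bool :=
  (p.1 == q.1 && p.2 != q.2) || (nb 0 p.1 == q.1 && bit p.2 0 == bit q.2 0) ||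
    (nb 1 p.1 == q.1 && bit p.2 1 == bit q.2 1) || (nb 2 p.1 == q.1 && bit p.2 2 == bit q.2 2)

lemma nb_nb : ∀ i u, nb i (nb i u) = u := by decide
lemma nb_ne : ∀ i u, nb i u ≠ u := by decide
lemma nb_inj : ∀ i j u, nb i u = nb j u → i = j := by decide
lemma nb_tri : ∀ i j k u, nb j (nb i u) ≠ nb k u := by decide
lemma bits : ∀ a b c : Bool, ∃ x, bit x 0 = a ∧ bit x 1 = b ∧ bit x 2 = c := by decide

lemma adj_iff (p q : W) : adj p q = true ↔
    (p.1 = q.1 ∧ p.2 ≠ q.2) ∨ ∃ i, nb i p.1 = q.1 ∧ bit p.2 i = bit q.2 i := by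
  simp [adj, Fin.exists_fin_succ, or_assoc]

def G : SimpleGraph W where
  Adj p q := adj p q = true
  symm := ⟨fun p q h => by
    rw [adj_iff] at h ⊢
    rcases h with ⟨h1, h2⟩ | ⟨i, h1, h2⟩
    · exact Or.inl ⟨h1.symm, h2.symm⟩
    · exact Or.inr ⟨i, by rw [← h1, nb_nb], h2.symm⟩⟩
  loopless := ⟨fun p h => by
    rw [adj_iff] at h
    rcases h with ⟨_, h2⟩ | ⟨i, h1, _⟩
    · exact h2 rfl
    · exact nb_ne _ _ h1⟩

instance : DecidableRel G.Adj := fun p q => inferInstanceAs (Decidable (adj p q = true))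

lemma G_adj (p q : W) : G.Adj p q ↔
    (p.1 = q.1 ∧ p.2 ≠ q.2) ∨ ∃ i, nb i p.1 = q.1 ∧ bit p.2 i = bit q.2 i := adj_iff p q

def lev (u : Fin 10) : Finset W := univ.filter fun r => r.1 = u

def star (u : Fin 10) (i : Fin 3) (b : Bool) : Finset W :=
  univ.filter fun r => (r.1 = u ∨ r.1 = nb i u) ∧ bit r.2 i = b

lemma lev_clique (u : Fin 10) : G.IsClique (lev u) := by
  intro p hp q hq h
  simp only [lev, coe_filter, mem_univ, true_and, Set.mem_ofPred_eq] at hp hq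
  exact (G_adj _ _).2 (Or.inl ⟨hp.trans hq.symm, fun e => h (Prod.ext (hp.trans hq.symm) e)⟩)

lemma star_clique (u : Fin 10) (i : Fin 3) (b : Bool) : G.IsClique (star u i b) := by
  intro p hp q hq h
  simp only [star, coe_filter, mem_univ, true_and, Set.mem_ofPred_eq] at hp hq
  by_cases e : p.1 = q.1
  · exact (G_adj _ _).2 (Or.inl ⟨e, fun e' => h (Prod.ext e e')⟩)
  · refine (G_adj _ _).2 (Or.inr ⟨i, ?_, hp.2.trans hq.2.symm⟩)
    rcases hp.1 with h1 | h1 <;> rcases hq.1 with h2 | h2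
    · exact absurd (h1.trans h2.symm) e
    · rw [h1, h2]
    · rw [h1, h2, nb_nb]
    · exact absurd (h1.trans h2.symm) e

lemma sub_Q (S : Set W) (hS : G.IsClique S) :
    (∃ u, S ⊆ lev u) ∨ ∃ u i b, S ⊆ star u i b := by
  by_cases h : ∃ p ∈ S, ∃ q ∈ S, p.1 ≠ q.1
  · obtain ⟨p, hp, q, hq, e⟩ := h
    have hpq := (G_adj _ _).1 (hS hp hq fun e' => e (by rw [e']))
    obtain ⟨i, h1, h2⟩ := hpq.resolve_left fun h => e h.1
    refine Or.inr ⟨p.1, i, bit p.2 i, fun r hr => ?_⟩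
    simp only [star, coe_filter, mem_univ, true_and, Set.mem_ofPred_eq]
    by_cases e1 : r.1 = p.1
    · refine ⟨Or.inl e1, ?_⟩
      have := (G_adj _ _).1 (hS hr hq fun e' => e (by rw [← e1, e']))
      obtain ⟨j, a1, a2⟩ := this.resolve_left fun h => e (e1.symm.trans h.1)
      obtain rfl : j = i := nb_inj _ _ p.1 (by rw [h1, ← e1, a1])
      rw [a2, h2]
    · have := (G_adj _ _).1 (hS hp hr fun e' => e1 (by rw [e']))
      obtain ⟨j, a1, a2⟩ := this.resolve_left fun h => e1 h.1.symm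
      by_cases e2 : r.1 = q.1
      · obtain rfl : j = i := nb_inj _ _ p.1 (by rw [h1, a1, e2])
        exact ⟨Or.inr a1.symm, a2.symm⟩
      · have := (G_adj _ _).1 (hS hq hr fun e' => e2 (by rw [e']))
        obtain ⟨k, b1, -⟩ := this.resolve_left fun h => e2 h.1.symm
        exact absurd (by rw [h1, b1, a1]) (nb_tri i k j p.1)
  · push Not at h
    rcases S.eq_empty_or_nonempty with rfl | ⟨p, hp⟩
    · exact Or.inl ⟨0, Set.empty_subset _⟩
    · exact Or.inl ⟨p.1, fun r hr => by simpa [lev] using h r hr p hp⟩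

lemma max_Q (S : Set W) (hS : Maximal G.IsClique S) :
    (∃ u, S = lev u) ∨ ∃ u i b, S = star u i b := by
  rcases sub_Q S hS.1 with ⟨u, h⟩ | ⟨u, i, b, h⟩
  · exact Or.inl ⟨u, hS.eq_of_le (lev_clique u) h⟩
  · exact Or.inr ⟨u, i, b, hS.eq_of_le (star_clique u i b) h⟩

lemma uniq {S : Set W} (hS : G.IsIndepSet S) {p q : W} (hp : p ∈ S) (hq : q ∈ S)
    (e : p.1 = q.1) : p = q := by
  by_contra h
  exact hS hp hq h ((G_adj _ _).2 (Or.inl ⟨e, fun e' => h (Prod.ext e e')⟩))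

lemma hit {S : Set W} (hS : Maximal G.IsIndepSet S) (u : Fin 10) : ∃ p ∈ S, p.1 = u := by
  by_contra hc
  push Not at hc
  have ch : ∀ i, ∃ b, ∀ q ∈ S, q.1 = nb i u → bit q.2 i ≠ b := by
    intro i
    by_cases h : ∃ q ∈ S, q.1 = nb i u
    · obtain ⟨q, hq, e⟩ := h
      refine ⟨!bit q.2 i, fun r hr e' => ?_⟩
      rw [uniq hS.1 hr hq (e'.trans e.symm)]
      simp
    · exact ⟨true, fun r hr e' => absurd ⟨r, hr, e'⟩ h⟩
  choose b hb using ch
  obtain ⟨x, h0, h1, h2⟩ := bits (b 0) (b 1) (b 2)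
  have hx : ∀ i, bit x i = b i := fun i => by fin_cases i <;> assumption
  have na : ∀ q ∈ S, ¬ G.Adj (u, x) q := by
    intro q hq h
    rcases (G_adj _ _).1 h with h | ⟨i, a1, a2⟩
    · exact hc q hq h.1.symm
    · exact hb i q hq a1.symm (by rw [← a2, hx])
  have hI : G.IsIndepSet (insert (u, x) S) := by
    rintro p (rfl | hp) q (rfl | hq) h
    · exact absurd rfl h
    · exact na q hq
    · exact fun h' => na p hp h'.symm
    · exact hS.1 hp hq h
  exact hc _ (hS.2 hI (Set.subset_insert _ _) (Set.mem_insert _ _)) rfl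

lemma cis : CIS G := by
  intro Q S hQ hS
  rcases max_Q Q hQ with ⟨u, rfl⟩ | ⟨u, i, b, rfl⟩
  · obtain ⟨p, hp, e⟩ := hit hS u
    exact ⟨p, by simpa [lev] using e, hp⟩
  · obtain ⟨p, hp, e⟩ := hit hS u
    obtain ⟨q, hq, e'⟩ := hit hS (nb i u)
    have hne : bit p.2 i ≠ bit q.2 i := fun h =>
      hS.1 hp hq (fun h' => nb_ne i u (by rw [← e', ← h', e]))
        ((G_adj _ _).2 (Or.inr ⟨i, by rw [e, e'], h⟩))
    by_cases h : bit p.2 i = b
    · exact ⟨p, by simp [star, e, h], hp⟩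
    · refine ⟨q, ?_, hq⟩
      have : bit q.2 i = b := by
        revert h hne; cases bit p.2 i <;> cases bit q.2 i <;> cases b <;> simp
      simp [star, e', this]

lemma ind_card {S : Set W} (hS : Maximal G.IsIndepSet S) : S.ncard = 10 := by
  have h1 : Set.InjOn Prod.fst S := fun p hp q hq e => uniq hS.1 hp hq e
  have h2 : Prod.fst '' S = Set.univ := Set.eq_univ_of_forall fun u => hit hS u
  rw [← h1.ncard_image, h2]
  simp

lemma cl_card {S : Set W} (hS : Maximal Gᶜ.IsIndepSet S) : S.ncard = 8 := by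
  have : Gᶜ.IsIndepSet = G.IsClique := by ext s; simp
  rw [this] at hS
  have a1 : ∀ u, #(lev u) = 8 := by decide +kernel
  have a2 : ∀ u i b, #(star u i b) = 8 := by decide +kernel
  rcases max_Q S hS with ⟨u, rfl⟩ | ⟨u, i, b, rfl⟩
  · rw [Set.ncard_coe_finset, a1]
  · rw [Set.ncard_coe_finset, a2]

lemma reg (v : W) : (G.neighborSet v).ncard = 19 := by
  have : G.neighborSet v = ↑(univ.filter fun w => adj v w = true) := by ext w; simp [G]
  rw [this, Set.ncard_coe_finset]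
  clear this; revert v; decide +kernel

lemma conn : G.Connected := by
  have a1 : ∀ u x, G.Reachable (u, 0) (u, x) := fun u x => by
    by_cases h : x = 0
    · rw [h]
    · exact ((G_adj (u, 0) (u, x)).2 (Or.inl ⟨rfl, Ne.symm h⟩)).reachable
  have a2 : ∀ i u, G.Reachable (u, 0) (nb i u, 0) := fun i u =>
    ((G_adj (u, 0) (nb i u, 0)).2 (Or.inr ⟨i, rfl, rfl⟩)).reachable
  have a3 : ∀ u, u = 0 ∨ ∃ i, nb i 0 = u ∨ ∃ j, nb j (nb i 0) = u ∨
      ∃ k, nb k (nb j (nb i 0)) = u := by decide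
  refine (connected_iff_exists_forall_reachable G).2 ⟨(0, 0), fun ⟨u, x⟩ => .trans ?_ (a1 u x)⟩
  rcases a3 u with rfl | ⟨i, rfl | ⟨j, rfl | ⟨k, rfl⟩⟩⟩
  exacts [.rfl, a2 _ _, (a2 _ _).trans (a2 _ _), ((a2 _ _).trans (a2 _ _)).trans (a2 _ _)]

def cadj (p q : W) : Bool := p != q && !adj p q

lemma cadj_iff (p q : W) : Gᶜ.Adj p q ↔ cadj p q = true := by simp [cadj, G]

lemma cconn : Gᶜ.Connected := by
  have a : ∀ p : W, p = (0, 0) ∨ cadj (0, 0) p = true ∨
      ∃ w, cadj (0, 0) w = true ∧ cadj w p = true := by decide +kernel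
  refine (connected_iff_exists_forall_reachable _).2 ⟨(0, 0), fun p => ?_⟩
  rcases a p with rfl | h | ⟨w, h1, h2⟩
  exacts [.rfl, ((cadj_iff _ _).2 h).reachable,
    ((cadj_iff _ _).2 h1).reachable.trans ((cadj_iff _ _).2 h2).reachable]

lemma irr : TwinFree G := by
  have a : ∀ p q : W, p = q ∨ ∃ w, adj p w ≠ adj q w := by decide +kernel
  intro p q h
  refine (a p q).resolve_right fun ⟨w, hw⟩ => hw ?_
  exact Bool.eq_iff_iff.2 (Set.ext_iff.1 h w)

lemma cirr : TwinFree Gᶜ := by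
  have a : ∀ p q : W, p = q ∨ ∃ w, cadj p w ≠ cadj q w := by decide +kernel
  intro p q h
  refine (a p q).resolve_right fun ⟨w, hw⟩ => hw ?_
  exact Bool.eq_iff_iff.2 (((cadj_iff _ _).symm.trans (Set.ext_iff.1 h w)).trans (cadj_iff _ _))

def ball (p : W) : Finset W := univ.filter fun w => ∃ z, adj p z = true ∧ adj z w = true

lemma nvt : ¬ ∃ φ : G ≃g G, φ (0, 0) = (7, 0) := by
  rintro ⟨φ, h⟩
  have h1 : #(ball (0, 0)) = 72 := by decide +kernel
  have h2 : #(ball (7, 0)) = 64 := by decide +kernel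
  have : #(ball (0, 0)) ≤ #(ball (7, 0)) := by
    refine card_le_card_of_injOn φ (fun w hw => ?_) φ.injective.injOn
    simp only [ball, coe_filter, mem_univ, true_and, Set.mem_ofPred_eq] at hw ⊢
    obtain ⟨z, a1, a2⟩ := hw
    exact ⟨φ z, h ▸ (φ.map_rel_iff.2 a1 : G.Adj _ _), (φ.map_rel_iff.2 a2 : G.Adj _ _)⟩
  omega

theorem result : ∃ (V : Type) (_ : Fintype V) (G : SimpleGraph V),
    (∃ d, ∀ v, (G.neighborSet v).ncard = d) ∧ CIS G ∧ G.Connected ∧ Gᶜ.Connected ∧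
    WellCovered G ∧ WellCovered Gᶜ ∧ TwinFree G ∧ TwinFree Gᶜ ∧
    ¬ ∀ u v, ∃ φ : G ≃g G, φ u = v :=
  ⟨W, inferInstance, G, ⟨19, reg⟩, cis, conn, cconn,
    fun _ _ h1 h2 => (ind_card h1).trans (ind_card h2).symm,
    fun _ _ h1 h2 => (cl_card h1).trans (cl_card h2).symm, irr, cirr, fun h => nvt (h _ _)⟩

end Pool.Agent.Results.MP_509871_co.Counter
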